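import Pool.Agent.helper75.WB.SpecI

/-!
# Row wb:ITHU (Thue)
-/

set_option autoImplicit false

namespace Pool.Agent.WB

open Finset

theorem ITHU : ITHU_stmt := by
  intro p p' Δ _ _ hΔ _ _
  have : Fact Δ.Prime := ⟨hΔ⟩
  have hk1 : Nat.sqrt Δ * Nat.sqrt Δ ≤ Δ := Nat.sqrt_le Δ
  have hk2 : Δ < (Nat.sqrt Δ + 1) * (Nat.sqrt Δ + 1) := Nat.lt_succ_sqrt Δ
  have hΔ2 : 2 ≤ Δ := hΔ.two_le
  have hkΔ : Nat.sqrt Δ < Δ := Nat.sqrt_lt_self hΔ.one_lt
  set k := Nat.sqrt Δ with hk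
  let S : Finset (ℕ × ℕ) := (range (k + 1)) ×ˢ (range (k + 1))
  let f : ℕ × ℕ → ZMod Δ := fun s => (s.2 : ZMod Δ) * p - (s.1 : ZMod Δ) * p'
  have hcard : (Finset.univ : Finset (ZMod Δ)).card < S.card := by
    rw [Finset.card_univ, ZMod.card, card_product, card_range]
    exact hk2
  obtain ⟨s, hs, t, ht, hst, hf⟩ :=
    Finset.exists_ne_map_eq_of_card_lt_of_maps_to hcard (f := f) (fun _ _ => Finset.mem_univ _)
  simp only [S, mem_product, mem_range] at hs ht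
  set X : ℤ := (s.1 : ℤ) - t.1 with hX
  set X' : ℤ := (s.2 : ℤ) - t.2 with hX'
  have hdvd : (Δ : ℤ) ∣ X' * p - X * p' := by
    rw [← ZMod.intCast_zmod_eq_zero_iff_dvd] 
    have h0 : f s - f t = 0 := sub_eq_zero.mpr hf
    simp only [f] at h0
    rw [hX, hX']
    push_cast
    linear_combination h0
  have hne : ¬ (X = 0 ∧ X' = 0) := by
    rintro ⟨h1, h2⟩
    apply hst
    refine Prod.ext ?_ ?_
    · omega
    · omega
  have hXk : |X| ≤ k := by rw [abs_le]; constructor <;> omega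
  have hXk' : |X'| ≤ k := by rw [abs_le]; constructor <;> omega
  have hgpos : 0 < Int.gcd X X' := by
    rw [Int.gcd_pos_iff]
    by_contra h
    rw [not_or, not_not, not_not] at h
    exact hne h
  have hgle : (Int.gcd X X' : ℤ) ≤ k := by
    by_cases h : X = 0
    · have h' : X' ≠ 0 := fun h2 => hne ⟨h, h2⟩
      have h3 : (Int.gcd X X' : ℤ) ∣ |X'| := (dvd_abs _ _).mpr (Int.gcd_dvd_right _ _)
      exact (Int.le_of_dvd (abs_pos.mpr h') h3).trans hXk'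
    · have h3 : (Int.gcd X X' : ℤ) ∣ |X| := (dvd_abs _ _).mpr (Int.gcd_dvd_left _ _)
      exact (Int.le_of_dvd (abs_pos.mpr h) h3).trans hXk
  set g : ℕ := Int.gcd X X' with hg
  obtain ⟨x, hx⟩ : (g : ℤ) ∣ X := Int.gcd_dvd_left _ _
  obtain ⟨x', hx'⟩ : (g : ℤ) ∣ X' := Int.gcd_dvd_right _ _
  have hg0 : (g : ℤ) ≠ 0 := by exact_mod_cast hgpos.ne'
  have hg1 : (1 : ℤ) ≤ g := by exact_mod_cast hgpos
  have hcop : IsCoprime x x' := by
    rw [Int.isCoprime_iff_gcd_eq_one]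
    have h1 : Int.gcd X X' = g * Int.gcd x x' := by
      rw [hx, hx', Int.gcd_mul_left]
      simp
    have h2 : g * Int.gcd x x' = g * 1 := by rw [← h1, mul_one]
    exact Nat.eq_of_mul_eq_mul_left hgpos h2
  have hsq : ∀ y Y : ℤ, Y = g * y → |Y| ≤ k → y ^ 2 ≤ (Δ : ℤ) := by
    intro y Y hY hYk
    have h1 : |y| ≤ |Y| := by
      rw [hY, abs_mul, abs_of_pos (by omega : (0 : ℤ) < g)]
      nlinarith [abs_nonneg y]
    have h2 : |y| ≤ k := h1.trans hYk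
    have h3 : y ^ 2 ≤ (k : ℤ) ^ 2 := by
      rw [← sq_abs]
      exact pow_le_pow_left₀ (abs_nonneg y) h2 2
    have h4 : ((k * k : ℕ) : ℤ) ≤ (Δ : ℤ) := by exact_mod_cast hk1
    push_cast at h4
    nlinarith
  refine ⟨x, x', hcop, hsq x X hx hXk, hsq x' X' hx' hXk', ?_⟩
  have h5 : (Δ : ℤ) ∣ g * (x' * p - x * p') := by
    have : (g : ℤ) * (x' * p - x * p') = X' * p - X * p' := by rw [hx, hx']; ring
    rw [this]
    exact hdvd
  have hcopg : IsCoprime (Δ : ℤ) (g : ℤ) := by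
    rw [Nat.isCoprime_iff_coprime]
    rw [Nat.Prime.coprime_iff_not_dvd hΔ]
    intro hd
    have h6 := Nat.le_of_dvd hgpos hd
    have h7 : g ≤ k := by exact_mod_cast hgle
    omega
  exact hcopg.dvd_of_dvd_mul_left h5

end Pool.Agent.WB
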